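import Pool.Agent.T6.H59.MA.MR
import Pool.Agent.T6.H59.MA.UNI
import Pool.Agent.T6.H59.MA.IND
import Pool.Agent.T6.H59.MA.ORD
import Pool.Agent.T6.H59.MA.C1
import Pool.Agent.T6.H59.MA.C2
import Pool.Agent.T6.H59.MA.C3
import Pool.Agent.T6.H59.MA.D1
import Pool.Agent.T6.H59.MA.D2
import Pool.Agent.T6.H59.MA.B0
import Pool.Agent.T6.H59.MA.B
import Pool.Agent.T6.H59.MA.A1
import Pool.Agent.T6.H59.MA.A
import Pool.Agent.T6.H59.MA.E1
import Pool.Agent.T6.H59.MA.PA
import Pool.Agent.T6.H59.MA.PB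
import Pool.Agent.T6.H59.MA.PC
import Pool.Agent.T6.H59.MA.EE
import Pool.Agent.T6.H59.MA.R
import Pool.Agent.T6.H59.MA.F
import Pool.Agent.T6.H59.MA.G
import Pool.Agent.T6.H59.MA.X
import Pool.Agent.T6.H59.MA.I1
import Pool.Agent.T6.H59.MA.I
import Pool.Agent.T6.H59.MA.H0
import Pool.Agent.T6.H59.MA.H1
import Pool.Agent.T6.H59.MA.H2
import Pool.Agent.T6.H59.MA.H3
import Pool.Agent.T6.H59.MA.H4
import Pool.Agent.T6.H59.MA.H5
import Pool.Agent.T6.H59.MA.HH
import Pool.Agent.T6.H59.MA.MAIN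
import Pool.Agent.T6.H59.MA.FIN
import Pool.Agent.T6.H59.MA.UNQ

/-!
# MP_e4ce4d_pr: the local limit of the minimum spanning arborescence, for every atomless law

`Fin (N + 2)` is the vertex set of the complete graph (`n = N + 2 ≥ 2`), vertex `0` is the vertex
called `1` in the problem, `d N ≠ 0` is the boundary vertex. The weights of the oriented edges
`Edg (N + 2)` are i.i.d. with law `μ` (an arbitrary atomless probability measure on the real line;
positivity of the weights is not needed). A spanning arborescence of minimal weight exists and is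
almost surely unique; `M N W` denotes it (any selection for the exceptional `W`). The oriented graph
`(V, M N W)` rooted at `0` converges locally to the infinite path with independent Poisson(1)
Galton-Watson trees attached.
-/

namespace Pool.Agent.Results.MP_e4ce4d_pr.LocalLimit
open MeasureTheory Filter Topology Pool.Agent.T6.H59.MA

theorem result (μ : Measure ℝ) [IsProbabilityMeasure μ] [NullSingletonClass μ]
    (d : ∀ N : ℕ, Fin (N + 2)) (hd : ∀ N, d N ≠ 0) :
    (∀ (N : ℕ) (W : Edg (N + 2) → ℝ), ∃ T, IsMinSpan W (d N) T) ∧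
    (∀ N : ℕ, ∀ᵐ W ∂(Measure.pi (fun _ : Edg (N + 2) => μ)), ∃! T, IsMinSpan W (d N) T) ∧
    ∀ M : (N : ℕ) → (Edg (N + 2) → ℝ) → Set (Fin (N + 2) × Fin (N + 2)),
      (∀ N W, IsMinSpan W (d N) (M N W)) → ∀ (R : ℕ) (H : FG),
        Tendsto (fun N : ℕ => (Measure.pi (fun _ : Edg (N + 2) => μ))
          {W | BallIso (fun x y => (x, y) ∈ M N W) 0 R H}) atTop
          (𝓝 (lawT {N | BallIso (ET N) ((0, []) : Addr) R H})) := by
  have hC1 : StmC1 := stmC1 stmMR stmGEN
  have hC3 : StmC3 := stmC3 hC1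
  have hB : StmB := stmB stmB0
  have hE1 : StmE1 := stmE1 stmMR
  have hE : StmE := stmE stmMR stmGEN hC3 stmD2 hB hE1 stmPA stmPB stmPC
  have hI : StmI := stmI stmMR stmGEN stmUNI hE stmA (stmF stmMR stmR) (stmG stmR) stmX stmI1
  have hH4 : StmH4 := stmH4_of stmMR stmH0 (stmH2 stmR stmH5) (stmH3 stmH5) stmH5
  have hH : StmH := stmH stmMR stmH0 stmH1 hH4 stmH5
  refine ⟨fun N W => exists_minSpan (d N) W, fun N => unique_minSpan stmUNI μ (d N), ?_⟩
  intro M hM R H
  exact fin_of (stmMain_of hI hH) stmUNI μ d hd M hM R H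

end Pool.Agent.Results.MP_e4ce4d_pr.LocalLimit
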